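import Pool.Agent.Helper26.HB.Goals

/-!
# Project HB (MP_a47ed5_al), packet LM: the family of limits
-/

set_option autoImplicit false

namespace Pool.Agent.Helper56.HB

open Filter Topology
open Pool.Agent.Helper7.Horo (len Gen bb)

section
variable {G : Type} [Group G] {S : Finset G}

lemma exists_lim (h : Gen S) (U : Ultrafilter ℕ) (w : ℕ → G) :
    ∃ x ∈ closure (Set.range (bb S)), Tendsto (fun n => bb S (w n)) U (𝓝 x) := by
  have h1 : ((U.map (fun n => bb S (w n)) : Ultrafilter (G → ℝ)) : Filter (G → ℝ)) ≤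
      𝓟 (closure (Set.range (bb S))) := by
    rw [Ultrafilter.coe_map, le_principal_iff, Filter.mem_map]
    exact Filter.univ_mem' fun n => subset_closure ⟨w n, rfl⟩
  obtain ⟨x, hx, hx'⟩ := (Pool.Agent.Helper7.Horo.closure_compact h).ultrafilter_le_nhds _ h1
  exact ⟨x, hx, hx'⟩

lemma lim_notMem (h : Gen S) (U : Ultrafilter ℕ) (hU : (U : Filter ℕ) ≤ atTop) (w : ℕ → G)
    (hw : ∀ n, n ≤ len S (w n)) (x : G → ℝ) (hx : Tendsto (fun n => bb S (w n)) U (𝓝 x)) :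
    x ∉ Set.range (bb S) := by
  rintro ⟨x0, rfl⟩
  have h1 : ∀ᶠ n in (U : Filter ℕ), ∀ k ∈ Pool.Agent.Helper7.Horo.ball h (len S x0 + 1),
      -((len S x0 + 1 : ℕ) : ℝ) < bb S (w n) k := by
    refine (Filter.eventually_all_finset _).2 fun k _ => ?_
    have h2 := (tendsto_pi_nhds.1 hx) k
    refine h2.eventually (lt_mem_nhds ?_)
    have h3 := Pool.Agent.Helper7.Horo.bb_ge' h x0 k
    push_cast
    linarith
  have h2 : ∀ᶠ n in (U : Filter ℕ), len S x0 + 1 ≤ n := hU (eventually_ge_atTop _)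
  obtain ⟨n, hn, hn'⟩ := (h1.and h2).exists
  obtain ⟨k, hk, hk'⟩ := Pool.Agent.Helper7.Horo.exists_down h (w n) (hn'.trans (hw n))
  have h4 := hn k ((Pool.Agent.Helper7.Horo.mem_ball h).2 hk.le)
  rw [hk'] at h4
  exact lt_irrefl _ h4

lemma bb_pow (w b : G) (R : ℕ) :
    bb S w (b ^ R) = (len S (b⁻¹ ^ R * w) : ℝ) - len S w := by
  simp only [bb]
  rw [inv_pow]

end

/-- elementary estimate for the bracket -/
lemma bracket {t t' : ℝ} (ht : 0 ≤ t) (htt : t < t') {R n : ℕ} (hR : 2 * R ≤ n)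
    (hn : 0 < n) (hnt : 4 / (t' - t) ≤ (n : ℝ)) :
    ⌊t * n⌋₊ + 1 ≤ ⌊t' * n⌋₊ ∧
    (R : ℝ) * ((⌊t' * n⌋₊ - ⌊t * n⌋₊ : ℕ) : ℝ) / ((n : ℝ) - R) +
      ((n : ℝ) - R) / ((⌊t' * n⌋₊ - ⌊t * n⌋₊ : ℕ) : ℝ) + 1 ≤
      2 * (t' - t) * R + (2 / (t' - t) + 2) := by
  have hd : 0 < t' - t := sub_pos.2 htt
  have hn' : (0 : ℝ) < n := by exact_mod_cast hn
  have hR' : 2 * (R : ℝ) ≤ n := by exact_mod_cast hR
  have hR0 : (0 : ℝ) ≤ R := Nat.cast_nonneg R
  have h1 : (⌊t * n⌋₊ : ℝ) ≤ t * n := Nat.floor_le (by positivity)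
  have h1' : t * n < ⌊t * n⌋₊ + 1 := Nat.lt_floor_add_one _
  have ht' : 0 ≤ t' := ht.trans htt.le
  have h2 : (⌊t' * n⌋₊ : ℝ) ≤ t' * n := Nat.floor_le (by positivity)
  have h2' : t' * n < ⌊t' * n⌋₊ + 1 := Nat.lt_floor_add_one _
  have h3 : 4 ≤ (t' - t) * n := by
    rw [div_le_iff₀ hd] at hnt
    linarith
  have h4 : ⌊t * n⌋₊ + 1 ≤ ⌊t' * n⌋₊ := by
    have : ((⌊t * n⌋₊ + 1 : ℕ) : ℝ) < ⌊t' * n⌋₊ + 1 := by
      push_cast
      linarith
    have h5 : ⌊t * n⌋₊ + 1 < ⌊t' * n⌋₊ + 1 := by exact_mod_cast this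
    omega
  refine ⟨h4, ?_⟩
  have hδ : ((⌊t' * n⌋₊ - ⌊t * n⌋₊ : ℕ) : ℝ) = (⌊t' * n⌋₊ : ℝ) - ⌊t * n⌋₊ := by
    rw [Nat.cast_sub (by omega)]
  set δ : ℝ := ((⌊t' * n⌋₊ - ⌊t * n⌋₊ : ℕ) : ℝ) with hδdef
  have hδ1 : δ ≤ (t' - t) * n + 1 := by rw [hδ]; linarith
  have hδ2 : (t' - t) * n / 2 ≤ δ := by rw [hδ]; linarith
  have hδ0 : 0 < δ := by linarith
  have hnR : 0 < (n : ℝ) - R := by linarith
  have e1 : (R : ℝ) * δ / ((n : ℝ) - R) ≤ 2 * (t' - t) * R + 1 := by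
    rw [div_le_iff₀ hnR]
    have e2 : (R : ℝ) * δ ≤ R * ((t' - t) * n + 1) := mul_le_mul_of_nonneg_left hδ1 hR0
    have e3 : 0 ≤ (t' - t) * R * (n - 2 * R) :=
      mul_nonneg (mul_nonneg hd.le hR0) (by linarith)
    nlinarith
  have e4 : ((n : ℝ) - R) / δ ≤ 2 / (t' - t) := by
    rw [div_le_div_iff₀ hδ0 hd]
    nlinarith
  linarith

theorem gLM : Pool.Agent.Helper26.HB.G_LM := by
  intro G _ S h a b ℓa ℓb C C' ε R0 hC hC' hℓb ha hb hab hj hlb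
  let U : Ultrafilter ℕ := Filter.hyperfilter ℕ
  have hU : (U : Filter ℕ) ≤ atTop := by
    rw [← Nat.cofinite_eq_atTop]
    exact Filter.hyperfilter_le_cofinite
  let w : ℝ → ℕ → G := fun t n => a ^ ⌊t * n⌋₊ * b ^ n
  have hX : ∀ t : ℝ, ∃ x ∈ closure (Set.range (bb S)),
      Tendsto (fun n => bb S (w t n)) U (𝓝 x) := fun t => exists_lim h U (w t)
  choose X hXc hXt using hX
  have hXp : ∀ (t : ℝ) (z : G), Tendsto (fun n => bb S (w t n) z) U (𝓝 (X t z)) :=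
    fun t z => (tendsto_pi_nhds.1 (hXt t)) z
  have hℓb' : (1 : ℝ) ≤ ℓb := by exact_mod_cast hℓb
  have hℓa0 : (0 : ℝ) ≤ ℓa := Nat.cast_nonneg _
  have hwlen : ∀ t n, n ≤ len S (w t n) := by
    intro t n
    have h1 := hab ⌊t * n⌋₊ n
    have h2 : (n : ℝ) ≤ (⌊t * n⌋₊ : ℝ) * ℓa + n * ℓb := by
      have h3 : (0 : ℝ) ≤ (⌊t * n⌋₊ : ℝ) * ℓa := by positivity
      have h4 : (0 : ℝ) ≤ n := Nat.cast_nonneg _
      nlinarith
    exact_mod_cast h2.trans h1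
  have hup : ∀ m n : ℕ, (len S (a ^ m * b ^ n) : ℝ) ≤ m * ℓa + n * ℓb + 2 * C := by
    intro m n
    have h1 : (len S (a ^ m * b ^ n) : ℝ) ≤ len S (a ^ m) + len S (b ^ n) := by
      exact_mod_cast Pool.Agent.Helper7.Horo.len_mul h (a ^ m) (b ^ n)
    linarith [ha m, hb n]
  refine ⟨X, ℓb + 2 * C + 2 * C', ?_, ?_, ?_, ?_, ?_⟩
  · intro t _
    exact ⟨hXc t, lim_notMem h U hU (w t) (hwlen t) (X t) (hXt t)⟩
  · intro t _ R
    have h1 : X t (b ^ R) ≤ len S (b ^ R) :=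
      le_of_tendsto (hXp t (b ^ R))
        (Eventually.of_forall fun n => Pool.Agent.Helper7.Horo.bb_le h _ _)
    have h2 : -(len S (b ^ R) : ℝ) ≤ X t (b ^ R) :=
      ge_of_tendsto (hXp t (b ^ R))
        (Eventually.of_forall fun n => Pool.Agent.Helper7.Horo.bb_ge h _ _)
    have h3 := hb R
    have h4 : (R : ℝ) * ℓb + C ≤ (ℓb + 2 * C + 2 * C') * (R + 1) := by
      have hR : (0 : ℝ) ≤ R := Nat.cast_nonneg _
      have h5 : 0 ≤ (2 * C + 2 * C') * R := by positivity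
      nlinarith
    rw [abs_le]
    constructor <;> linarith
  · intro R
    refine le_of_tendsto (hXp 0 (b ^ R)) ?_
    filter_upwards [hU (eventually_ge_atTop R)] with n hn
    rw [bb_pow]
    have e1 : w 0 n = b ^ n := by
      simp only [w, zero_mul, Nat.floor_zero, pow_zero, one_mul]
    have e2 : b⁻¹ ^ R * b ^ n = b ^ (n - R) := by
      rw [inv_pow, inv_mul_eq_iff_eq_mul, ← pow_add]
      congr 1
      omega
    rw [e1, e2]
    have h1 := hb (n - R)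
    have h2 := hab 0 n
    rw [pow_zero, one_mul] at h2
    rw [Nat.cast_sub hn] at h1
    push_cast at h2
    linarith
  · intro R hR
    obtain ⟨n0, hn0⟩ := hlb R hR
    refine ge_of_tendsto (hXp 1 (b ^ R)) ?_
    filter_upwards [hU (eventually_ge_atTop n0)] with n hn
    rw [bb_pow]
    have e1 : w 1 n = a ^ n * b ^ n := by
      simp only [w, one_mul, Nat.floor_natCast]
    rw [e1, ← mul_assoc]
    have h1 := hn0 n hn
    have h2 := hup n n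
    linarith
  · intro t t' ht htt ht'
    have hd : 0 < t' - t := sub_pos.2 htt
    refine ⟨2 * C + C' * (2 / (t' - t) + 2), fun R => ?_⟩
    have h1 : X t' (b ^ R) ≤ X t (b ^ R) + (2 * C + C' * (2 * (t' - t) * R + (2 / (t' - t) + 2))) := by
      refine le_of_tendsto_of_tendsto (hXp t' (b ^ R)) ((hXp t (b ^ R)).add_const _) ?_
      filter_upwards [hU (eventually_ge_atTop (2 * R + 1)),
        hU (eventually_ge_atTop ⌈4 / (t' - t)⌉₊)] with n hn hn'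
      have hn4 : 4 / (t' - t) ≤ (n : ℝ) := (Nat.le_ceil _).trans (by exact_mod_cast hn')
      obtain ⟨b1, b2⟩ := bracket ht htt (by omega : 2 * R ≤ n) (by omega) hn4
      rw [bb_pow, bb_pow]
      have e1 : w t' n = a ^ (⌊t * n⌋₊ + (⌊t' * n⌋₊ - ⌊t * n⌋₊)) * b ^ n := by
        simp only [w]
        congr 2
        omega
      have e2 : w t n = a ^ ⌊t * n⌋₊ * b ^ n := rfl
      rw [e1, e2, ← mul_assoc, ← mul_assoc]
      have j1 := hj R ⌊t * n⌋₊ (⌊t' * n⌋₊ - ⌊t * n⌋₊) n (by omega) (by omega)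
      have j2 := hab (⌊t * n⌋₊ + (⌊t' * n⌋₊ - ⌊t * n⌋₊)) n
      have j3 := hup ⌊t * n⌋₊ n
      have j4 := mul_le_mul_of_nonneg_left b2 hC'
      rw [Nat.cast_add] at j2
      linarith
    have h2 : 0 ≤ (ℓb + 2 * C) * (t' - t) * R := by positivity
    linarith

end Pool.Agent.Helper56.HB
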